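import Mathlib
import Pool.Agent.E8helper50.SR.S

/-!
# Project SR, piece NIL
-/

set_option autoImplicit false

universe u

namespace Pool.Agent.E8helper31.SR
open Pool.Agent.E8helper50.SR

theorem one_add_one : ∀ p : ZMod 2, 1 + p + 1 = p := by decide

theorem zero_or_one : ∀ q : ZMod 2, q = 0 ∨ q = 1 := by decide

section

variable {F : Type u} [Field F] (A : SAlg F) (J : Submodule F A)

/-- `y` is a product of `k` elements of `J` and an element of parity `q` -/
def FF : ℕ → ZMod 2 → A → Prop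
  | 0, q, y => y ∈ A.gr q
  | k + 1, q, y => ∃ z : Fin (k + 1) → A, (∀ i, z i ∈ J) ∧
      ((q = 0 ∧ y = wprod k z) ∨ ∃ a ∈ A.gr q, y = wprod k z * a)

/-- `y` is a product of an odd element, `k` elements of `J` and a further element -/
def GG : ℕ → ZMod 2 → A → Prop
  | 0, q, y => y ∈ A.gr q
  | k + 1, q, y => ∃ b ∈ A.gr 1, ∃ z : Fin (k + 1) → A, (∀ i, z i ∈ J) ∧
      ((q = 1 ∧ y = b * wprod k z) ∨ ∃ a ∈ A.gr (q + 1), y = b * wprod k z * a)

variable {A J}

theorem snoc_wprod {k : ℕ} (z : Fin (k + 1) → A) (x : A) :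
    wprod (k + 1) (Fin.snoc (α := fun _ => (A : Type u)) z x) = wprod k z * x := by
  show wprod k (fun i => Fin.snoc (α := fun _ => (A : Type u)) z x i.castSucc) *
    Fin.snoc (α := fun _ => (A : Type u)) z x (Fin.last (k + 1)) = _
  rw [Fin.snoc_last]
  congr 1
  congr 1
  funext i
  rw [Fin.snoc_castSucc]

theorem snoc_mem {k : ℕ} {z : Fin (k + 1) → A} (hz : ∀ i, z i ∈ J) {x : A} (hx : x ∈ J) :
    ∀ i, Fin.snoc (α := fun _ => (A : Type u)) z x i ∈ J := by
  intro i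
  refine Fin.lastCases ?_ (fun j => ?_) i
  · rw [Fin.snoc_last]; exact hx
  · rw [Fin.snoc_castSucc]; exact hz j

theorem FF_mul {k : ℕ} {q p : ZMod 2} {y x : A} (h : FF A J k q y) (hx : x ∈ A.gr p) :
    FF A J k (q + p) (y * x) := by
  cases k with
  | zero => exact A.mul_mem q p y x h hx
  | succ k =>
    obtain ⟨z, hz, h | ⟨a, ha, h⟩⟩ := h
    · refine ⟨z, hz, Or.inr ⟨x, ?_, by rw [h.2]⟩⟩
      rw [h.1, zero_add]; exact hx
    · refine ⟨z, hz, Or.inr ⟨a * x, A.mul_mem q p a x ha hx, ?_⟩⟩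
      rw [h, mul_assoc]

theorem GG_mul {k : ℕ} {q p : ZMod 2} {y x : A} (h : GG A J k q y) (hx : x ∈ A.gr p) :
    GG A J k (q + p) (y * x) := by
  cases k with
  | zero => exact A.mul_mem q p y x h hx
  | succ k =>
    obtain ⟨b, hb, z, hz, h | ⟨a, ha, h⟩⟩ := h
    · refine ⟨b, hb, z, hz, Or.inr ⟨x, ?_, by rw [h.2]⟩⟩
      have e : q + p + 1 = p := by
        rw [h.1]
        exact one_add_one p
      rw [e]; exact hx
    · refine ⟨b, hb, z, hz, Or.inr ⟨a * x, ?_, ?_⟩⟩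
      · have := A.mul_mem (q + 1) p a x ha hx
        have e : q + p + 1 = q + 1 + p := by ring
        rw [e]; exact this
      · rw [h, mul_assoc]

theorem FF_J (hJ : ∀ a ∈ A.gr 0, ∀ z ∈ J, a * z ∈ J ∧ z * a ∈ J)
    {k : ℕ} {y x : A} (h : FF A J k 0 y) (hx : x ∈ J) : FF A J (k + 1) 0 (y * x) := by
  cases k with
  | zero =>
    refine ⟨fun _ => y * x, fun _ => (hJ y h x hx).1, Or.inl ⟨rfl, rfl⟩⟩
  | succ k =>
    obtain ⟨z, hz, h | ⟨a, ha, h⟩⟩ := h
    · refine ⟨Fin.snoc (α := fun _ => (A : Type u)) z x, snoc_mem hz hx, Or.inl ⟨rfl, ?_⟩⟩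
      rw [snoc_wprod, h.2]
    · refine ⟨Fin.snoc (α := fun _ => (A : Type u)) z (a * x), snoc_mem hz (hJ a ha x hx).1,
        Or.inl ⟨rfl, ?_⟩⟩
      rw [snoc_wprod, h, mul_assoc]

theorem GG_J (hJ : ∀ a ∈ A.gr 0, ∀ z ∈ J, a * z ∈ J ∧ z * a ∈ J)
    {k : ℕ} {y x : A} (h : GG A J k 1 y) (hx : x ∈ J) : GG A J (k + 1) 1 (y * x) := by
  cases k with
  | zero =>
    refine ⟨y, h, fun _ => x, fun _ => hx, Or.inl ⟨rfl, rfl⟩⟩
  | succ k =>
    obtain ⟨b, hb, z, hz, h | ⟨a, ha, h⟩⟩ := h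
    · refine ⟨b, hb, Fin.snoc (α := fun _ => (A : Type u)) z x, snoc_mem hz hx,
        Or.inl ⟨rfl, ?_⟩⟩
      rw [snoc_wprod, h.2, mul_assoc]
    · have ha0 : a ∈ A.gr 0 := ha
      refine ⟨b, hb, Fin.snoc (α := fun _ => (A : Type u)) z (a * x),
        snoc_mem hz (hJ a ha0 x hx).1, Or.inl ⟨rfl, ?_⟩⟩
      rw [snoc_wprod, h]
      simp only [mul_assoc]

theorem long_zero {m : ℕ} (hm : ∀ z : Fin (m + 1) → A, (∀ i, z i ∈ J) → wprod m z = 0) :
    ∀ k, m ≤ k → ∀ z : Fin (k + 1) → A, (∀ i, z i ∈ J) → wprod k z = 0 := by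
  intro k hk
  induction k, hk using Nat.le_induction with
  | base => exact hm
  | succ k _ ih =>
    intro z hz
    show wprod k (fun i => z i.castSucc) * z (Fin.last (k + 1)) = 0
    rw [ih _ fun i => hz _, zero_mul]

theorem words (hJ0 : J ≤ A.gr 0) (hJ : ∀ a ∈ A.gr 0, ∀ z ∈ J, a * z ∈ J ∧ z * a ∈ J) :
    ∀ (n : ℕ) (x : Fin (n + 1) → A) (D : Finset (Fin (n + 1))), (∀ i, ∃ p, x i ∈ A.gr p) →
      (∀ i ∈ D, x i ∈ J) → ∃ (q : ZMod 2) (α β : ℕ), FF A J α q (wprod n x) ∧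
        GG A J β q (wprod n x) ∧ D.card ≤ α + β := by
  intro n
  induction n with
  | zero =>
    intro x D hx hD
    have hc : D.card ≤ 1 := by
      have := Finset.card_le_univ D
      simpa using this
    by_cases h0 : (0 : Fin 1) ∈ D
    · refine ⟨0, 1, 0, ⟨fun _ => x 0, fun _ => hD 0 h0, Or.inl ⟨rfl, rfl⟩⟩, hJ0 (hD 0 h0), hc⟩
    · obtain ⟨p, hp⟩ := hx 0
      refine ⟨p, 0, 0, hp, hp, ?_⟩
      have : D = ∅ := by
        ext i
        have hi : i = 0 := Fin.fin_one_eq_zero i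
        rw [hi]; simp [h0]
      rw [this]; simp
  | succ n ih =>
    intro x D hx hD
    let D' : Finset (Fin (n + 1)) := Finset.univ.filter fun i => i.castSucc ∈ D
    have hsub : D ⊆ insert (Fin.last (n + 1)) (D'.map Fin.castSuccEmb) := by
      intro i hi
      rw [Finset.mem_insert, Finset.mem_map]
      rcases Fin.eq_castSucc_or_eq_last i with ⟨j, rfl⟩ | h
      · exact Or.inr ⟨j, by simp [D', hi], rfl⟩
      · exact Or.inl h
    have hsub' : Fin.last (n + 1) ∉ D → D ⊆ D'.map Fin.castSuccEmb := by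
      intro hl i hi
      have := hsub hi
      rw [Finset.mem_insert] at this
      rcases this with h | h
      · exact absurd (h ▸ hi) hl
      · exact h
    obtain ⟨q, α, β, h1, h2, h3⟩ := ih (fun i => x i.castSucc) D' (fun i => hx _) (fun i hi => by
      apply hD
      simpa [D'] using hi)
    have hw : wprod (n + 1) x = wprod n (fun i => x i.castSucc) * x (Fin.last (n + 1)) := rfl
    by_cases hl : Fin.last (n + 1) ∈ D
    · have hxJ := hD _ hl
      have hx0 := hJ0 hxJ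
      have hc : D.card ≤ α + β + 1 := by
        have := (Finset.card_le_card hsub).trans (Finset.card_insert_le _ _)
        rw [Finset.card_map] at this
        omega
      rcases zero_or_one q with hq | hq
      · subst hq
        refine ⟨0, α + 1, β, ?_, ?_, by omega⟩
        · rw [hw]; exact FF_J hJ h1 hxJ
        · rw [hw]; exact GG_mul h2 hx0
      · subst hq
        refine ⟨1, α, β + 1, ?_, ?_, by omega⟩
        · rw [hw]; exact FF_mul h1 hx0
        · rw [hw]; exact GG_J hJ h2 hxJ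
    · obtain ⟨p, hp⟩ := hx (Fin.last (n + 1))
      refine ⟨q + p, α, β, ?_, ?_, ?_⟩
      · rw [hw]; exact FF_mul h1 hp
      · rw [hw]; exact GG_mul h2 hp
      · have := Finset.card_le_card (hsub' hl)
        rw [Finset.card_map] at this
        omega

end

/-- piece NIL -/
theorem t_NIL : S_NIL.{u} := by
  intro F _ A J m hJ0 hJ hm n x D hx hD hc
  obtain ⟨q, α, β, h1, h2, h3⟩ := words hJ0 hJ n x D hx hD
  rcases (show m + 1 ≤ α ∨ m + 1 ≤ β by omega) with h | h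
  · obtain ⟨k, rfl⟩ : ∃ k, α = k + 1 := ⟨α - 1, by omega⟩
    obtain ⟨z, hz, e⟩ := h1
    have hz0 := long_zero hm k (by omega) z hz
    rcases e with e | ⟨a, _, e⟩
    · rw [e.2, hz0]
    · rw [e, hz0, zero_mul]
  · obtain ⟨k, rfl⟩ : ∃ k, β = k + 1 := ⟨β - 1, by omega⟩
    obtain ⟨b, _, z, hz, e⟩ := h2
    have hz0 := long_zero hm k (by omega) z hz
    rcases e with e | ⟨a, _, e⟩
    · rw [e.2, hz0, mul_zero]
    · rw [e, hz0, mul_zero, zero_mul]

end Pool.Agent.E8helper31.SR
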